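import Mathlib
import Pool.Agent.H986R2.K4.PL
import Pool.Agent.H986R2.K4.HHb
import Pool.Agent.V11273.DX.Cnt

set_option autoImplicit false

/-!
# Bounds for `XX` from bounds for zeta on one line
-/

namespace Pool.Agent.V11273.LHX

open Complex Filter Topology Set
open Pool.Agent.H24R2.JP (XX HH Om)

/-- `ζ(1/2 + x + iT) = T^{o(1)}` -/
def Zb (x : ℝ) : Prop := ∀ ε : ℝ, 0 < ε → ∃ T0 : ℝ, ∀ T : ℝ, T0 ≤ T →
  ‖riemannZeta (1 / 2 + x + T * I)‖ ≤ Real.exp (ε * Om T)

/-- maximum principle on a rectangle with a Gaussian factor -/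
lemma rect {f : ℂ → ℂ} (hf : ∀ z : ℂ, 0 < z.im → DifferentiableAt ℂ f z) {a b T W M : ℝ} (hab : a < b)
    (hba : b - a ≤ 2) (hW : 0 < W) (hWT : W < T) (hM : 0 ≤ M)
    (ha : ∀ t : ℝ, |t - T| ≤ W → ‖f (a + t * I)‖ ≤ M)
    (hb : ∀ t : ℝ, |t - T| ≤ W → ‖f (b + t * I)‖ ≤ M)
    (hh : ∀ x : ℝ, a ≤ x → x ≤ b → ∀ t : ℝ, |t - T| = W → ‖f (x + t * I)‖ ≤ M * Real.exp (W ^ 2))
    {x : ℝ} (hx : a ≤ x) (hx' : x ≤ b) : ‖f (x + T * I)‖ ≤ M * Real.exp 4 := by
  obtain ⟨g, hg⟩ : ∃ g : ℂ → ℂ, g = fun z => f z * cexp ((z - (x + T * I)) ^ 2) := ⟨_, rfl⟩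
  have hgn : ∀ z : ℂ, ‖g z‖ = ‖f z‖ * Real.exp ((z.re - x) ^ 2 - (z.im - T) ^ 2) := by
    intro z
    rw [hg]
    simp only [norm_mul, Complex.norm_exp]
    congr 2
    simp [pow_two]
  have hcd : T - W < T + W := by linarith
  have hU : Bornology.IsBounded (Ioo a b ×ℂ Ioo (T - W) (T + W)) :=
    (Metric.isBounded_Ioo a b).reProdIm (Metric.isBounded_Ioo _ _)
  have hclo : closure (Ioo a b ×ℂ Ioo (T - W) (T + W)) = Icc a b ×ℂ Icc (T - W) (T + W) := by
    rw [Complex.closure_reProdIm, closure_Ioo hab.ne, closure_Ioo hcd.ne]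
  have hd : DiffContOnCl ℂ g (Ioo a b ×ℂ Ioo (T - W) (T + W)) := by
    apply DifferentiableOn.diffContOnCl
    rw [hclo]
    intro z hz
    have him : 0 < z.im := by
      have := hz.2.1
      linarith
    rw [hg]
    exact ((hf z him).mul (by fun_prop)).differentiableWithinAt
  have hkey := Complex.norm_le_of_forall_mem_frontier_norm_le hU hd (C := M * Real.exp 4) ?_
    (z := x + T * I) ?_
  · rw [hgn] at hkey
    simpa using hkey
  · intro z hz
    rw [hgn]
    have hz' : z ∈ Icc a b ×ℂ Icc (T - W) (T + W) := by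
      rw [← hclo]; exact frontier_subset_closure hz
    have hre : (z.re - x) ^ 2 ≤ 4 := by
      have h1 := hz'.1
      have : |z.re - x| ≤ 2 := by
        rw [abs_le]; constructor <;> linarith [h1.1, h1.2]
      rw [← sq_abs]
      nlinarith [abs_nonneg (z.re - x)]
    have him : |z.im - T| ≤ W := by
      have h1 := hz'.2
      rw [abs_le]; constructor <;> linarith [h1.1, h1.2]
    have hzz : z = z.re + z.im * I := (Complex.re_add_im z).symm
    rw [Complex.frontier_reProdIm, frontier_Ioo hab, frontier_Ioo hcd] at hz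
    rcases hz with hz | hz
    · -- horizontal edges
      have h2 : |z.im - T| = W := by
        rcases hz.2 with h3 | h3
        · rw [h3]; rw [show T - W - T = -W by ring, abs_neg, abs_of_pos hW]
        · rw [mem_singleton_iff.1 h3]; rw [show T + W - T = W by ring, abs_of_pos hW]
      have h3 := hh z.re hz'.1.1 hz'.1.2 z.im h2
      rw [← hzz] at h3
      have h4 : (z.im - T) ^ 2 = W ^ 2 := by rw [← sq_abs, h2]
      rw [h4]
      calc ‖f z‖ * Real.exp ((z.re - x) ^ 2 - W ^ 2) ≤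
            (M * Real.exp (W ^ 2)) * Real.exp ((z.re - x) ^ 2 - W ^ 2) := by gcongr
        _ = M * Real.exp ((z.re - x) ^ 2) := by
            rw [mul_assoc, ← Real.exp_add]; congr 2; ring
        _ ≤ _ := by gcongr
    · have h3 : ‖f z‖ ≤ M := by
        rcases hz.1 with h4 | h4
        · have := ha z.im him
          rw [← h4, ← hzz] at this
          exact this
        · have := hb z.im him
          rw [← mem_singleton_iff.1 h4, ← hzz] at this
          exact this
      refine mul_le_mul h3 (Real.exp_le_exp.2 ?_) (Real.exp_pos _).le hM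
      nlinarith [sq_nonneg (z.im - T)]
  · rw [hclo]
    refine ⟨?_, ?_⟩
    · simpa using ⟨hx, hx'⟩
    · simp
      exact hW.le


/-- zeta is bounded to the right of `1` -/
lemma zc {σ : ℝ} (hσ : 1 < σ) : ∃ C : ℝ, 1 ≤ C ∧ ∀ s : ℂ, σ ≤ s.re → ‖riemannZeta s‖ ≤ C := by
  have hsum : Summable fun n : ℕ => 1 / ((n : ℝ) + 1) ^ σ := by
    have := (summable_nat_add_iff 1).2 (Real.summable_one_div_nat_rpow.2 hσ)
    simpa using this
  refine ⟨max 1 (∑' n : ℕ, 1 / ((n : ℝ) + 1) ^ σ), le_max_left _ _, fun s hs => ?_⟩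
  refine le_trans ?_ (le_max_right _ _)
  rw [zeta_eq_tsum_one_div_nat_add_one_cpow (by linarith)]
  refine tsum_of_norm_bounded hsum.hasSum fun n => ?_
  have h1 : ((n : ℂ) + 1) = (((n : ℝ) + 1 : ℝ) : ℂ) := by push_cast; ring
  rw [norm_div, norm_one, h1, Complex.norm_cpow_eq_rpow_re_of_pos (by positivity)]
  apply one_div_le_one_div_of_le (by positivity)
  apply Real.rpow_le_rpow_of_exponent_le
  · have : (0 : ℝ) ≤ n := Nat.cast_nonneg n
    linarith
  · exact hs

lemma Om_tend : Tendsto Om atTop atTop := by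
  have : Om = fun t => Real.log t / 2 := by funext t; rfl
  rw [this]
  exact Real.tendsto_log_atTop.atTop_div_const (by norm_num)

lemma Om_ge (c : ℝ) : ∃ T0 : ℝ, 400 ≤ T0 ∧ ∀ t : ℝ, T0 ≤ t → c ≤ Om t := by
  obtain ⟨T0, h⟩ := Filter.eventually_atTop.1 (Om_tend.eventually_ge_atTop c)
  exact ⟨max T0 400, le_max_right _ _, fun t ht => h t ((le_max_left _ _).trans ht)⟩

lemma Om_near {T t : ℝ} (hT : 400 ≤ T) (h1 : T / 2 ≤ t) (h2 : t ≤ 2 * T) : Om t ≤ Om T + 1 ∧ Om T ≤ Om t + 1 := by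
  have hl : Real.log 2 ≤ 1 := by have := Real.log_two_lt_d9; linarith
  unfold Pool.Agent.H24R2.JP.Om
  constructor
  · have := Real.log_le_log (by linarith) h2
    rw [Real.log_mul (by norm_num) (by linarith)] at this
    linarith
  · have := Real.log_le_log (by linarith) h1
    rw [Real.log_div (by linarith) (by norm_num)] at this
    linarith

lemma Om_lt {T : ℝ} (hT : 400 ≤ T) : 0 < Om T ∧ Om T ≤ T / 2 := by
  unfold Pool.Agent.H24R2.JP.Om
  have h1 := Real.log_le_sub_one_of_pos (show (0 : ℝ) < T by linarith)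
  have h2 := Real.log_pos (show (1 : ℝ) < T by linarith)
  constructor <;> linarith

lemma rpow_Om {T : ℝ} (hT : 0 < T) (ν : ℝ) : T ^ ν = Real.exp (2 * ν * Om T) := by
  rw [Real.rpow_def_of_pos hT]
  unfold Pool.Agent.H24R2.JP.Om
  congr 1
  ring

lemma Zb_one : Zb 1 := by
  intro ε hε
  obtain ⟨C, hC1, hC⟩ := zc (σ := 3 / 2) (by norm_num)
  obtain ⟨T0, hT0, hO⟩ := Om_ge (Real.log C / ε)
  refine ⟨T0, fun T hT => (hC _ (by simp; norm_num)).trans ?_⟩
  rw [← Real.exp_log (by linarith : 0 < C)]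
  apply Real.exp_le_exp.2
  have := hO T hT
  rw [div_le_iff₀ hε] at this
  linarith

lemma ztd {z : ℂ} (hz : 0 < z.im) : DifferentiableAt ℂ (fun z => riemannZeta (1 / 2 + z)) z := by
  have h1 : (1 / 2 + z : ℂ) ≠ 1 := by
    intro h
    have := congrArg Complex.im h
    simp at this
    linarith
  exact (differentiableAt_riemannZeta h1).comp z (by fun_prop)

/-- crude bound for zeta -/
lemma crude : ∃ C T0 : ℝ, 1 ≤ C ∧ 400 ≤ T0 ∧ ∀ T : ℝ, T0 ≤ T → ∀ x : ℝ, 0 ≤ x →
    ‖riemannZeta (1 / 2 + x + T * I)‖ ≤ C * Real.exp (Om T) := by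
  obtain ⟨C1, hC1, hz1⟩ := zc (σ := 3 / 2) (by norm_num)
  obtain ⟨C', T1, hC', hT1, hpl⟩ := Pool.Agent.H986R2.K4.pl Pool.Agent.H986R2.K4.hh 1 0 C1 1 1 one_pos le_rfl le_rfl
    zero_le_one (by linarith) le_rfl le_rfl (fun t _ => by
      rw [Real.rpow_zero, mul_one]
      exact hz1 _ (by simp; norm_num))
  obtain ⟨K, hK, hH⟩ := Pool.Agent.H986R2.K4.hh
  obtain ⟨T2, hT2, hH⟩ := hH 1 le_rfl
  refine ⟨max C1 (C' * Real.exp K), max (max T1 T2) 400, hC1.trans (le_max_left _ _), le_max_right _ _, ?_⟩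
  intro T hT x hx
  have g1 : T1 ≤ T := (le_max_left _ _).trans ((le_max_left _ _).trans hT)
  have g2 : T2 ≤ T := (le_max_right _ _).trans ((le_max_left _ _).trans hT)
  have g4 : 400 ≤ T := (le_max_right _ _).trans hT
  have hO := (Om_lt g4).1
  have hexp : 1 ≤ Real.exp (Om T) := Real.one_le_exp hO.le
  rcases le_total x 1 with h1 | h1
  · have hu : ‖(x : ℂ)‖ ≤ 1 := by
      rw [Complex.norm_real, Real.norm_eq_abs, abs_of_nonneg hx]; exact h1
    have a1 := hpl T x g1 (by rw [Complex.ofReal_re, abs_of_nonneg hx]; exact h1) (by simp)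
    obtain ⟨-, a2, -, a3, -⟩ := hH T x g2 hu
    have him : 0 < (I * T + x : ℂ).im := by simp; linarith
    rw [Pool.Agent.H24R2.JP.ZetaTask.part1 _ him, norm_mul, Real.rpow_zero, mul_one, one_mul] at a1
    have e1 : (1 / 2 + x + T * I : ℂ) = 1 / 2 + (I * T + x) := by ring
    rw [e1]
    have hp : 0 < ‖HH (I * T + x)‖ := norm_pos_iff.2 a2
    have h0 : 0 ≤ ‖HH (I * T)‖ := norm_nonneg _
    have a4 : ‖HH (I * T + x)‖ * ‖riemannZeta (1 / 2 + (I * T + x))‖ ≤
        ‖HH (I * T + x)‖ * (C' * Real.exp K * Real.exp (Om T)) := by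
      refine a1.trans ?_
      have a5 : ‖HH (I * T)‖ ≤ Real.exp K * ‖HH (I * T + x)‖ := by
        have a6 : Real.exp (-K) * ‖HH (I * T)‖ ≤ ‖HH (I * T + x)‖ := by
          refine le_trans ?_ a3
          gcongr
          rw [Complex.ofReal_re]
          nlinarith
        calc ‖HH (I * T)‖ = Real.exp K * (Real.exp (-K) * ‖HH (I * T)‖) := by
              rw [← mul_assoc, ← Real.exp_add, add_neg_cancel, Real.exp_zero, one_mul]
          _ ≤ _ := by gcongr
      calc C' * (Real.exp (Om T) * ‖HH (I * T)‖) ≤ C' * (Real.exp (Om T) * (Real.exp K * ‖HH (I * T + x)‖)) := by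
            gcongr
        _ = _ := by ring
    refine (le_of_mul_le_mul_left a4 hp).trans ?_
    gcongr
    exact le_max_right _ _
  · refine (hz1 _ (by simp; linarith)).trans ?_
    calc C1 = C1 * 1 := (mul_one _).symm
      _ ≤ _ := by
        gcongr
        exact le_max_left _ _

/-- to the right of the line -/
lemma right {h : ℝ} (h0 : 0 ≤ h) (hZ : Zb h) {ε : ℝ} (hε : 0 < ε) : ∃ T0 : ℝ, 400 ≤ T0 ∧ ∀ T : ℝ, T0 ≤ T →
    ∀ x : ℝ, h ≤ x → ‖riemannZeta (1 / 2 + x + T * I)‖ ≤ Real.exp (ε * Om T) := by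
  obtain ⟨T1, hT1⟩ := hZ (ε / 2) (by linarith)
  obtain ⟨C1, hC1, hz1⟩ := zc (σ := 3 / 2) (by norm_num)
  obtain ⟨C, T2, hC, hT2, hcr⟩ := crude
  obtain ⟨T3, hT3, hO⟩ := Om_ge (max (2 + Real.log C) ((Real.log C1 + 4 + ε) / (ε / 2)))
  refine ⟨max (max (2 * T1) (2 * T2)) T3, hT3.trans (le_max_right _ _), fun T hT x hx => ?_⟩
  have g1 : 2 * T1 ≤ T := (le_max_left _ _).trans ((le_max_left _ _).trans hT)
  have g2 : 2 * T2 ≤ T := (le_max_right _ _).trans ((le_max_left _ _).trans hT)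
  have g3 : T3 ≤ T := (le_max_right _ _).trans hT
  have g4 : 400 ≤ T := hT3.trans g3
  obtain ⟨hO0, hO1⟩ := Om_lt g4
  have hO2 := (le_max_left _ _).trans (hO T g3)
  have hO3 := (le_max_right _ _).trans (hO T g3)
  rw [div_le_iff₀ (by linarith)] at hO3
  have hlC : 0 ≤ Real.log C := Real.log_nonneg hC
  have hlC1 : 0 ≤ Real.log C1 := Real.log_nonneg hC1
  obtain ⟨M, hM⟩ : ∃ M : ℝ, M = C1 * Real.exp (ε / 2 * (Om T + 1)) := ⟨_, rfl⟩
  have hMe : 1 ≤ Real.exp (ε / 2 * (Om T + 1)) := Real.one_le_exp (by positivity)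
  have hM1 : C1 ≤ M := by rw [hM]; nlinarith
  have hMb : M * Real.exp 4 ≤ Real.exp (ε * Om T) := by
    rw [hM, ← Real.exp_log (by linarith : 0 < C1), ← Real.exp_add, ← Real.exp_add]
    apply Real.exp_le_exp.2
    nlinarith
  rcases le_total x (h + 2) with hx2 | hx2
  · have key := rect (f := fun z => riemannZeta (1 / 2 + z)) (fun z hz => ztd hz) (a := h) (b := h + 2) (T := T)
      (W := Om T) (M := M) (by linarith) (by linarith) hO0 (by linarith) (by linarith) ?_ ?_ ?_ hx hx2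
    · have e1 : (1 / 2 + x + T * I : ℂ) = 1 / 2 + (x + T * I) := by ring
      rw [e1]
      exact key.trans hMb
    · intro t ht
      rw [abs_le] at ht
      have e1 : (1 / 2 + (h + t * I) : ℂ) = 1 / 2 + h + t * I := by ring
      rw [e1]
      refine (hT1 t (by linarith)).trans ?_
      have h5 := (Om_near g4 (t := t) (by linarith) (by linarith)).1
      have h6 : Real.exp (ε / 2 * Om t) ≤ Real.exp (ε / 2 * (Om T + 1)) := by gcongr
      rw [hM]
      nlinarith
    · intro t ht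
      exact (hz1 _ (by simp; linarith)).trans hM1
    · intro y hy1 hy2 t ht
      have ht' : |t - T| ≤ Om T := ht.le
      rw [abs_le] at ht'
      have e1 : (1 / 2 + (y + t * I) : ℂ) = 1 / 2 + y + t * I := by ring
      rw [e1]
      refine (hcr t (by linarith) y (by linarith)).trans ?_
      have h5 := (Om_near g4 (t := t) (by linarith) (by linarith)).1
      calc C * Real.exp (Om t) = Real.exp (Real.log C + Om t) := by
            rw [Real.exp_add, Real.exp_log (by linarith)]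
        _ ≤ Real.exp (Om T ^ 2) := by
            apply Real.exp_le_exp.2
            nlinarith
        _ ≤ M * Real.exp (Om T ^ 2) := by
            have := Real.exp_pos (Om T ^ 2)
            nlinarith
  · refine (hz1 _ (by simp; linarith)).trans (hM1.trans ?_)
    refine le_trans ?_ hMb
    have : 1 ≤ Real.exp 4 := Real.one_le_exp (by norm_num)
    nlinarith


lemma XX_refl (w : ℂ) : ‖XX (-((starRingEnd ℂ) w))‖ = ‖XX w‖ := by
  rw [Pool.Agent.H24R2.JP.Zer.XX_even, Pool.Agent.H24R2.JP.B1h.XX_conj, Complex.norm_conj]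

/-- bounds for `XX` -/
lemma XXb {h : ℝ} (h0 : 0 < h) (h1 : h ≤ 1) (hZ : Zb h) {ε R : ℝ} (hε : 0 < ε) (hε1 : ε ≤ 2) (hR : 1 ≤ R) :
    ∃ T0 : ℝ, 400 ≤ T0 ∧ ∀ T : ℝ, T0 ≤ T → ∀ u : ℂ, ‖u‖ ≤ R →
    ‖XX (I * T + u)‖ ≤ Real.exp (Om T * (max |u.re| h + ε)) * ‖HH (I * T)‖ := by
  obtain ⟨T1, hT1⟩ := hZ (ε / 2) (by linarith)
  obtain ⟨C', T2, hC', hT2, hpl⟩ := Pool.Agent.H986R2.K4.pl Pool.Agent.H986R2.K4.hh h (ε / 4) 1 (max T1 1) R h0 h1
    (by linarith) (by linarith) one_pos (le_max_right _ _) hR (fun t ht => by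
      have a1 : T1 ≤ t := (le_max_left _ _).trans ht
      have a2 : 1 ≤ t := (le_max_right _ _).trans ht
      rw [rpow_Om (by linarith), one_mul]
      refine (hT1 t a1).trans (le_of_eq ?_)
      congr 1
      ring)
  obtain ⟨K, hK, hH⟩ := Pool.Agent.H986R2.K4.hh
  obtain ⟨T3, hT3, hH⟩ := hH R hR
  obtain ⟨T4, hT4, hri⟩ := right h0.le hZ (ε := ε / 4) (by linarith)
  obtain ⟨T5, hT5, hO⟩ := Om_ge (max (2 * Real.log C' / ε) ((4 * K * R + 4) / ε))
  refine ⟨max (max (max T2 T3) (2 * T4)) (max T5 (2 * R)), hT5.trans ((le_max_left _ _).trans (le_max_right _ _)), ?_⟩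
  intro T hT u hu
  have g2 : T2 ≤ T := (le_max_left _ _).trans ((le_max_left _ _).trans ((le_max_left _ _).trans hT))
  have g3 : T3 ≤ T := (le_max_right _ _).trans ((le_max_left _ _).trans ((le_max_left _ _).trans hT))
  have g4 : 2 * T4 ≤ T := (le_max_right _ _).trans ((le_max_left _ _).trans hT)
  have g5 : T5 ≤ T := (le_max_left _ _).trans ((le_max_right _ _).trans hT)
  have g6 : 2 * R ≤ T := (le_max_right _ _).trans ((le_max_right _ _).trans hT)
  have g7 : 400 ≤ T := hT5.trans g5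
  have hO0 := (Om_lt g7).1
  have hO1 := (le_max_left _ _).trans (hO T g5)
  have hO2 := (le_max_right _ _).trans (hO T g5)
  rw [div_le_iff₀ hε] at hO1 hO2
  have hHn : 0 ≤ ‖HH (I * T)‖ := norm_nonneg _
  -- the case of a large real part
  have big : ∀ v : ℂ, ‖v‖ ≤ R → h ≤ v.re → ‖XX (I * T + v)‖ ≤
      Real.exp (Om T * (max |v.re| h + ε)) * ‖HH (I * T)‖ := by
    intro v hv hvr
    have him' : |v.im| ≤ R := (abs_im_le_norm v).trans hv
    rw [abs_le] at him'
    have him : 0 < (I * T + v : ℂ).im := by simp; linarith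
    obtain ⟨-, -, -, -, b3⟩ := hH T v g3 hv
    rw [Pool.Agent.H24R2.JP.ZetaTask.part1 _ him, norm_mul]
    have e1 : (1 / 2 + (I * T + v) : ℂ) = 1 / 2 + ((v.re : ℝ) : ℂ) + ((T + v.im : ℝ) : ℂ) * I := by
      apply Complex.ext <;> simp
    rw [e1]
    have b4 := hri (T + v.im) (by linarith) v.re hvr
    have b5 := (Om_near g7 (t := T + v.im) (by linarith) (by linarith)).1
    have hv0 : |v.re| = v.re := abs_of_nonneg (by linarith)
    rw [hv0, max_eq_left hvr]
    calc ‖HH (I * T + v)‖ * ‖riemannZeta (1 / 2 + ((v.re : ℝ) : ℂ) + ((T + v.im : ℝ) : ℂ) * I)‖ ≤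
        (Real.exp (Om T * v.re + K * R) * ‖HH (I * T)‖) * Real.exp (ε / 4 * Om (T + v.im)) := by gcongr
      _ = Real.exp (Om T * v.re + K * R + ε / 4 * Om (T + v.im)) * ‖HH (I * T)‖ := by
          rw [Real.exp_add (Om T * v.re + K * R)]; ring
      _ ≤ _ := by
          gcongr
          nlinarith
  rcases le_total |u.re| h with hr | hr
  · have a1 := hpl T u g2 hr ((abs_im_le_norm u).trans hu)
    refine a1.trans ?_
    rw [max_eq_right hr, rpow_Om (by linarith), ← Real.exp_log hC']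
    calc Real.exp (Real.log C') * Real.exp (2 * (ε / 4) * Om T) * (Real.exp (h * Om T) * ‖HH (I * T)‖) =
        Real.exp (Real.log C' + 2 * (ε / 4) * Om T + h * Om T) * ‖HH (I * T)‖ := by
          rw [Real.exp_add, Real.exp_add]; ring
      _ ≤ _ := by
          gcongr
          nlinarith
  · rcases le_total 0 u.re with h2 | h2
    · exact big u hu (by rwa [abs_of_nonneg h2] at hr)
    · have h3 := big (-((starRingEnd ℂ) u)) (by rw [norm_neg, Complex.norm_conj]; exact hu) (by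
        rw [abs_of_nonpos h2] at hr
        simpa using hr)
      have e1 : (-((starRingEnd ℂ) u)).re = -u.re := by simp
      have e2 : I * T + -((starRingEnd ℂ) u) = -((starRingEnd ℂ) (I * T + u)) := by
        rw [map_add, map_mul, Complex.conj_I, Complex.conj_ofReal]
        ring
      rw [e1, abs_neg, e2, XX_refl] at h3
      exact h3

end Pool.Agent.V11273.LHX
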