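import Mathlib
import Pool.Agent.V11273.LHX.Zb
import Pool.Agent.V11273.DX.Cnt2
import Pool.Agent.W186.LH.Sab

set_option autoImplicit false

/-!
# The normalised combination of two shifts near height `T`, on either side of the line
-/

namespace Pool.Agent.V11273.LHX

open Complex Filter Topology Set Metric
open Pool.Agent.H24R2.JP (XX HH Om)
open Pool.Agent.V11273.DX (FF FF_diff nexp nexp' FF_neg)

lemma FF_le (h θ : ℝ) (z : ℂ) : ‖FF h θ z‖ ≤ ‖XX (z + h)‖ + ‖XX (z - h)‖ := by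
  unfold Pool.Agent.V11273.DX.FF
  refine (norm_add_le _ _).trans ?_
  rw [norm_mul, norm_mul, nexp, nexp', one_mul, one_mul]

lemma FF_ge (h θ : ℝ) (z : ℂ) : ‖XX (z + h)‖ - ‖XX (z - h)‖ ≤ ‖FF h θ z‖ := by
  unfold Pool.Agent.V11273.DX.FF
  have h1 := norm_sub_le (cexp (θ * I) * XX (z + h) + cexp (-(θ * I)) * XX (z - h)) (cexp (-(θ * I)) * XX (z - h))
  rw [add_sub_cancel_right, norm_mul, norm_mul, nexp, nexp', one_mul, one_mul] at h1
  linarith

lemma zeta_low (v : ℂ) (hv : 2 ≤ v.re) : 1 / 2 ≤ ‖riemannZeta v‖ := by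
  have h1 : 1 < v.re := by linarith
  have h2 := ArithmeticFunction.LSeries_zeta_mul_Lseries_moebius h1
  rw [ArithmeticFunction.LSeries_zeta_eq_riemannZeta h1] at h2
  have hs2 : HasSum (fun n : ℕ => 1 / (n : ℝ) ^ 2) (Real.pi ^ 2 / 6) := hasSum_zeta_two
  have h3 : ‖LSeries (fun n => ((ArithmeticFunction.moebius n : ℤ) : ℂ)) v‖ ≤ Real.pi ^ 2 / 6 := by
    rw [← hs2.tsum_eq]
    refine tsum_of_norm_bounded hs2.summable.hasSum ?_
    intro n
    by_cases hn : n = 0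
    · simp [hn]
    · rw [LSeries.norm_term_eq, if_neg hn]
      have hn1 : (1:ℝ) ≤ n := by exact_mod_cast Nat.one_le_iff_ne_zero.2 hn
      have e1 : ‖((ArithmeticFunction.moebius n : ℤ) : ℂ)‖ ≤ 1 := by
        rw [Complex.norm_intCast]
        exact_mod_cast ArithmeticFunction.abs_moebius_le_one
      have e2 : (n:ℝ) ^ (2:ℝ) ≤ (n:ℝ) ^ v.re := Real.rpow_le_rpow_of_exponent_le hn1 hv
      rw [Real.rpow_two] at e2
      have e3 : (0:ℝ) < (n:ℝ) ^ 2 := by positivity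
      exact div_le_div₀ zero_le_one e1 e3 e2
  have h4 : Real.pi ^ 2 / 6 ≤ 2 := by
    have := Real.pi_lt_d2
    have := Real.pi_pos
    nlinarith
  have h5 : 1 = ‖riemannZeta v‖ *
      ‖LSeries (fun n => ((ArithmeticFunction.moebius n : ℤ) : ℂ)) v‖ := by
    rw [← norm_mul, h2, norm_one]
  have h6 : 0 ≤ ‖riemannZeta v‖ := norm_nonneg _
  nlinarith [norm_nonneg (LSeries (fun n => ((ArithmeticFunction.moebius n : ℤ) : ℂ)) v)]

/-- transfer of orders -/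
lemma ord_tr {G E : ℂ → ℂ} (hG : Differentiable ℂ G) (hne : ∃ u, G u ≠ 0) {a b : ℂ} (ha : a ≠ 0)
    (hE : Differentiable ℂ E) (hE0 : ∀ u, E u ≠ 0) (u0 : ℂ) :
    analyticOrderNatAt (fun u => G (a * u + b) * E u) u0 = analyticOrderNatAt G (a * u0 + b) := by
  obtain ⟨h, hh, hh0, hGh⟩ := Pool.Agent.W186.LH.single hG hne (a * u0 + b)
  obtain ⟨n, hn⟩ : ∃ n : ℕ, n = analyticOrderNatAt G (a * u0 + b) := ⟨_, rfl⟩
  rw [← hn] at hGh ⊢
  have hc : Differentiable ℂ fun u : ℂ => a * u + b := by fun_prop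
  refine Pool.Agent.W186.LH.ord_of (h := fun u => a ^ n * h (a * u + b) * E u) ?_ ?_ ?_ fun u => ?_
  · exact (hG.comp hc).mul hE
  · exact ((hh.comp hc).const_mul (a ^ n)).mul hE
  · exact mul_ne_zero (mul_ne_zero (pow_ne_zero _ ha) hh0) (hE0 _)
  · rw [hGh]
    have : a * u + b - (a * u0 + b) = a * (u - u0) := by ring
    rw [this, mul_pow]
    ring

lemma FF_refl (h θ : ℝ) (z : ℂ) : ‖FF h θ (-((starRingEnd ℂ) z))‖ = ‖FF h θ z‖ := by
  rw [FF_neg]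
  have e : FF h (-θ) ((starRingEnd ℂ) z) = (starRingEnd ℂ) (FF h θ z) := by
    unfold Pool.Agent.V11273.DX.FF
    rw [map_add, map_mul, map_mul, ← Pool.Agent.H24R2.JP.B1h.XX_conj, ← Pool.Agent.H24R2.JP.B1h.XX_conj,
      ← Complex.exp_conj, ← Complex.exp_conj]
    simp only [map_neg, map_mul, map_add, map_sub, Complex.conj_ofReal, Complex.conj_I]
    push_cast
    ring_nf
  rw [e, Complex.norm_conj]

/-- the normalised function on the side `s = 1` or `s = -1` -/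
noncomputable def gN (h θ T s : ℝ) (u : ℂ) : ℂ :=
  FF h θ (I * T + s * u) * cexp (-(Om T : ℂ) * u) *
    (((‖HH (I * T)‖ * Real.exp (Om T * h))⁻¹ : ℝ) : ℂ)

lemma gN_diff (h θ T s : ℝ) : Differentiable ℂ (gN h θ T s) := by
  have h2 : Differentiable ℂ fun u : ℂ => FF h θ (I * T + s * u) := (FF_diff h θ).comp (by fun_prop)
  unfold gN
  exact (h2.mul (by fun_prop)).mul_const _

lemma HHp {T : ℝ} (hT : 0 < T) : 0 < ‖HH (I * T)‖ := by
  have h0 : HH (I * T) ≠ 0 := by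
    apply Pool.Agent.H24R2.JP.StirAux.HH_ne
    simpa using hT
  exact norm_pos_iff.2 h0

lemma FF_side (h θ T : ℝ) {s : ℝ} (hs : s = 1 ∨ s = -1) (u : ℂ) :
    ∃ v : ℂ, v.re = u.re ∧ |v.im| = |u.im| ∧ ‖v‖ = ‖u‖ ∧ ‖FF h θ (I * T + s * u)‖ = ‖FF h θ (I * T + v)‖ := by
  rcases hs with rfl | rfl
  · exact ⟨u, rfl, rfl, rfl, by simp⟩
  · refine ⟨(starRingEnd ℂ) u, by simp, by simp, Complex.norm_conj _, ?_⟩
    rw [← FF_refl]
    congr 2
    rw [map_add, map_mul, map_mul, Complex.conj_I, Complex.conj_ofReal, Complex.conj_ofReal]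
    push_cast
    ring

lemma gN_norm {h θ T : ℝ} (hT : 0 < T) (s : ℝ) (u : ℂ) :
    ‖gN h θ T s u‖ * (‖HH (I * T)‖ * Real.exp (Om T * (u.re + h))) = ‖FF h θ (I * T + s * u)‖ := by
  have hHp := HHp hT
  unfold gN
  rw [norm_mul, norm_mul, Complex.norm_exp, Complex.norm_real, Real.norm_of_nonneg (by positivity)]
  have h2 : (-(Om T : ℂ) * u).re = -(Om T * u.re) := by simp
  rw [h2, mul_add, Real.exp_add]
  have h3 : Real.exp (-(Om T * u.re)) * Real.exp (Om T * u.re) = 1 := by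
    rw [← Real.exp_add, neg_add_cancel, Real.exp_zero]
  have h4 := (Real.exp_pos (Om T * h)).ne'
  have h5 := hHp.ne'
  calc _ = ‖FF h θ (I * T + s * u)‖ *
        (Real.exp (-(Om T * u.re)) * Real.exp (Om T * u.re)) *
        ((‖HH (I * T)‖ * Real.exp (Om T * h))⁻¹ * (‖HH (I * T)‖ * Real.exp (Om T * h))) := by ring
    _ = _ := by
        rw [h3, inv_mul_cancel₀ (mul_ne_zero h5 h4), mul_one, mul_one]

lemma FF_nz {h : ℝ} (hh : 0 < h) (θ : ℝ) : ∃ u, FF h θ u ≠ 0 := ⟨1, Pool.Agent.V11273.DX.FF_one hh⟩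

lemma gN_ord {h T s : ℝ} (hh : 0 < h) (θ : ℝ) (hT : 0 < T) (hs : s = 1 ∨ s = -1) (u : ℂ) :
    analyticOrderNatAt (gN h θ T s) u = analyticOrderNatAt (FF h θ) (I * T + s * u) := by
  have hHp := HHp hT
  have hs0 : (s : ℂ) ≠ 0 := by
    rcases hs with rfl | rfl <;> simp
  obtain ⟨c, hc⟩ : ∃ c : ℂ, c = (((‖HH (I * T)‖ * Real.exp (Om T * h))⁻¹ : ℝ) : ℂ) := ⟨_, rfl⟩
  have hc0 : c ≠ 0 := by
    rw [hc, Complex.ofReal_ne_zero]
    positivity
  have h2 := ord_tr (G := FF h θ) (E := fun u => cexp (-(Om T : ℂ) * u) * c) (FF_diff h θ) (FF_nz hh θ) hs0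
    (b := I * T) (by fun_prop) (fun u => mul_ne_zero (Complex.exp_ne_zero _) hc0) u
  have e : gN h θ T s = fun u => FF h θ (s * u + I * T) * (cexp (-(Om T : ℂ) * u) * c) := by
    funext u
    unfold gN
    rw [← hc, add_comm (I * (T : ℂ)), mul_assoc]
  rw [e, h2, add_comm]

lemma gN_zero {h θ T s : ℝ} (hT : 0 < T) (u : ℂ) : gN h θ T s u = 0 ↔ FF h θ (I * T + s * u) = 0 := by
  have hHp := HHp hT
  rw [← norm_eq_zero, ← norm_eq_zero (a := FF h θ (I * T + s * u)), ← gN_norm hT]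
  constructor
  · intro h1; rw [h1, zero_mul]
  · intro h1
    rcases mul_eq_zero.1 h1 with h2 | h2
    · exact h2
    · exact absurd h2 (by positivity)

/-- upper bound for the combination, from the bound for zeta on the line `1/2 + h` -/
lemma FFb {h k : ℝ} (h0 : 0 < h) (h1 : h ≤ 1) (k0 : 0 < k) (k1 : k ≤ 1) (hZ : Zb k) {ε R : ℝ}
    (hε : 0 < ε) (hε1 : ε ≤ 2) (hR : 1 ≤ R) :
    ∃ T0 : ℝ, 400 ≤ T0 ∧ ∀ T : ℝ, T0 ≤ T → ∀ θ : ℝ, ∀ u : ℂ, ‖u‖ ≤ R → 0 ≤ u.re →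
    ‖FF h θ (I * T + u)‖ ≤ Real.exp (Om T * (max (u.re + h) k + ε)) * ‖HH (I * T)‖ := by
  obtain ⟨T1, hT1, hX⟩ := XXb k0 k1 hZ (ε := ε / 2) (R := R + 1) (by linarith) (by linarith) (by linarith)
  obtain ⟨T2, hT2, hO⟩ := Om_ge (2 * Real.log 2 / ε)
  refine ⟨max T1 T2, hT1.trans (le_max_left _ _), fun T hT θ u hu hur => ?_⟩
  have g1 : T1 ≤ T := (le_max_left _ _).trans hT
  have g2 := hO T ((le_max_right _ _).trans hT)
  rw [div_le_iff₀ hε] at g2
  have g4 : 400 ≤ T := hT1.trans g1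
  have hO0 := (Om_lt g4).1
  have hn : ‖(h : ℂ)‖ ≤ 1 := by
    rw [Complex.norm_real, Real.norm_eq_abs, abs_of_pos h0]; exact h1
  have a1 := hX T g1 (u + h) ((norm_add_le _ _).trans (by linarith))
  have a2 := hX T g1 (u - h) ((norm_sub_le _ _).trans (by linarith))
  have e1 : max |(u + h : ℂ).re| k ≤ max (u.re + h) k := by
    rw [Complex.add_re, Complex.ofReal_re, abs_of_nonneg (by linarith)]
  have e2 : max |(u - h : ℂ).re| k ≤ max (u.re + h) k := by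
    rw [Complex.sub_re, Complex.ofReal_re]
    refine max_le_max ?_ le_rfl
    rw [abs_le]
    constructor <;> linarith
  have hH := norm_nonneg (HH (I * T))
  have b1 : ‖XX (I * T + (u + h))‖ ≤ Real.exp (Om T * (max (u.re + h) k + ε / 2)) * ‖HH (I * T)‖ := by
    refine a1.trans ?_
    gcongr
  have b2 : ‖XX (I * T + (u - h))‖ ≤ Real.exp (Om T * (max (u.re + h) k + ε / 2)) * ‖HH (I * T)‖ := by
    refine a2.trans ?_
    gcongr
  refine (FF_le h θ _).trans ?_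
  rw [add_assoc, ← add_sub_assoc] at *
  calc ‖XX (I * T + (u + h))‖ + ‖XX (I * T + u - h)‖ ≤
        2 * (Real.exp (Om T * (max (u.re + h) k + ε / 2)) * ‖HH (I * T)‖) := by linarith
    _ = Real.exp (Real.log 2 + Om T * (max (u.re + h) k + ε / 2)) * ‖HH (I * T)‖ := by
        rw [Real.exp_add, Real.exp_log two_pos]; ring
    _ ≤ _ := by
        gcongr
        nlinarith

/-- lower bound to the right -/
lemma FFl {h : ℝ} (h0 : 0 < h) (h1 : h ≤ 1 / 2) {ε R : ℝ}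
    (hε : 0 < ε) (hR : 1 ≤ R) :
    ∃ T0 : ℝ, 400 ≤ T0 ∧ ∀ T : ℝ, T0 ≤ T → ∀ θ : ℝ, ∀ u : ℂ, ‖u‖ ≤ R → 3 / 2 ≤ u.re →
    Real.exp (Om T * (u.re + h - ε)) * ‖HH (I * T)‖ ≤ ‖FF h θ (I * T + u)‖ := by
  obtain ⟨K, hK, hH⟩ := Pool.Agent.H986R2.K4.hh
  obtain ⟨T3, hT3, hH⟩ := hH (R + 1) (by linarith)
  obtain ⟨C1, hC1, hz1⟩ := zc (σ := 3 / 2) (by norm_num)
  obtain ⟨T2, hT2, hO⟩ := Om_ge (max ((K * (R + 1) + Real.log 4) / ε)
    ((2 * (K * (R + 1)) + Real.log 4 + Real.log C1) / (2 * h)))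
  have h2 : h ≤ 1 := by linarith
  refine ⟨max (max T3 T2) (2 * (R + 1)), hT2.trans ((le_max_right _ _).trans (le_max_left _ _)), fun T hT θ u hu hur => ?_⟩
  have g3 : T3 ≤ T := (le_max_left _ _).trans ((le_max_left _ _).trans hT)
  have g2 : T2 ≤ T := (le_max_right _ _).trans ((le_max_left _ _).trans hT)
  have g6 : 2 * (R + 1) ≤ T := (le_max_right _ _).trans hT
  have g4 : 400 ≤ T := hT2.trans g2
  have hO0 := (Om_lt g4).1
  have q1 := (le_max_left _ _).trans (hO T g2)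
  have q2 := (le_max_right _ _).trans (hO T g2)
  rw [div_le_iff₀ hε] at q1
  rw [div_le_iff₀ (by linarith)] at q2
  have hn : ‖(h : ℂ)‖ ≤ 1 := by
    rw [Complex.norm_real, Real.norm_eq_abs, abs_of_pos h0]; exact h2
  obtain ⟨-, -, -, a3, -⟩ := hH T (u + h) g3 ((norm_add_le _ _).trans (by linarith))
  obtain ⟨-, -, -, -, a4⟩ := hH T (u - h) g3 ((norm_sub_le _ _).trans (by linarith))
  have him' : |u.im| ≤ R := (abs_im_le_norm u).trans hu
  rw [abs_le] at him'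
  have im1 : 0 < (I * T + (u + h) : ℂ).im := by simp; linarith
  have im2 : 0 < (I * T + (u - h) : ℂ).im := by simp; linarith
  have hHp := HHp (T := T) (by linarith)
  have b1 : Real.exp (Om T * (u.re + h)) * Real.exp (-(K * (R + 1))) * ‖HH (I * T)‖ * (1 / 2) ≤
      ‖XX (I * T + (u + h))‖ := by
    rw [Pool.Agent.H24R2.JP.ZetaTask.part1 _ im1, norm_mul]
    have z1 := zeta_low (1 / 2 + (I * T + (u + h))) (by simp; linarith)
    have e1 : Real.exp (Om T * (u.re + h)) * Real.exp (-(K * (R + 1))) =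
        Real.exp (Om T * (u + h : ℂ).re - K * (R + 1)) := by
      rw [← Real.exp_add]
      congr 1
    rw [e1]
    gcongr
  have b2 : ‖XX (I * T + (u - h))‖ ≤
      Real.exp (Om T * (u.re - h)) * Real.exp (K * (R + 1)) * ‖HH (I * T)‖ * C1 := by
    rw [Pool.Agent.H24R2.JP.ZetaTask.part1 _ im2, norm_mul]
    have z1 := hz1 (1 / 2 + (I * T + (u - h))) (by simp; linarith)
    have e1 : Real.exp (Om T * (u.re - h)) * Real.exp (K * (R + 1)) =
        Real.exp (Om T * (u - h : ℂ).re + K * (R + 1)) := by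
      rw [← Real.exp_add]
      congr 1
    rw [e1]
    gcongr
  have b3 : Real.exp (Om T * (u.re - h)) * Real.exp (K * (R + 1)) * ‖HH (I * T)‖ * C1 ≤
      Real.exp (Om T * (u.re + h)) * Real.exp (-(K * (R + 1))) * ‖HH (I * T)‖ * (1 / 4) := by
    have e1 : Real.exp (Om T * (u.re - h)) * Real.exp (K * (R + 1)) * C1 * 4 ≤
        Real.exp (Om T * (u.re + h)) * Real.exp (-(K * (R + 1))) := by
      rw [← Real.exp_log (show (0 : ℝ) < 4 by norm_num), ← Real.exp_log (show 0 < C1 by linarith), ← Real.exp_add,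
        ← Real.exp_add, ← Real.exp_add, ← Real.exp_add]
      apply Real.exp_le_exp.2
      nlinarith
    nlinarith
  have b4 : Real.exp (Om T * (u.re + h - ε)) ≤
      Real.exp (Om T * (u.re + h)) * Real.exp (-(K * (R + 1))) * (1 / 4) := by
    have e1 : Real.exp (Om T * (u.re + h - ε)) * 4 ≤ Real.exp (Om T * (u.re + h)) * Real.exp (-(K * (R + 1))) := by
      rw [← Real.exp_log (show (0 : ℝ) < 4 by norm_num), ← Real.exp_add, ← Real.exp_add]
      apply Real.exp_le_exp.2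
      nlinarith
    linarith
  have b5 := FF_ge h θ (I * T + u)
  rw [add_assoc, add_sub_assoc] at b5
  nlinarith

/-- upper bound for the normalised function -/
lemma gN_up {h k : ℝ} (h0 : 0 < h) (h1 : h ≤ 1) (k0 : 0 < k) (k1 : k ≤ 1) (hZ : Zb k) {ε R : ℝ}
    (hε : 0 < ε) (hε1 : ε ≤ 2) (hR : 1 ≤ R) :
    ∃ T0 : ℝ, 400 ≤ T0 ∧ ∀ T : ℝ, T0 ≤ T → ∀ θ s : ℝ, (s = 1 ∨ s = -1) → ∀ u : ℂ, ‖u‖ ≤ R → 0 ≤ u.re →
    ‖gN h θ T s u‖ ≤ Real.exp (Om T * (max (u.re + h) k - (u.re + h) + ε)) := by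
  obtain ⟨T0, hT0, H⟩ := FFb h0 h1 k0 k1 hZ hε hε1 hR
  refine ⟨T0, hT0, fun T hT θ s hs u hu hur => ?_⟩
  have hTp : 0 < T := by linarith
  obtain ⟨v, v1, v2, v3, v4⟩ := FF_side h θ T hs u
  have h5 := H T hT θ v (by rw [v3]; exact hu) (by rw [v1]; exact hur)
  rw [← v4, ← gN_norm hTp, v1] at h5
  have hp : 0 < ‖HH (I * T)‖ * Real.exp (Om T * (u.re + h)) := mul_pos (HHp hTp) (Real.exp_pos _)
  refine le_of_mul_le_mul_right (h5.trans (le_of_eq ?_)) hp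
  have e : Real.exp (Om T * (max (u.re + h) k + ε)) =
      Real.exp (Om T * (max (u.re + h) k - (u.re + h) + ε)) * Real.exp (Om T * (u.re + h)) := by
    rw [← Real.exp_add]; congr 1; ring
  rw [e]
  ring

/-- lower bound for the normalised function -/
lemma gN_lo {h : ℝ} (h0 : 0 < h) (h1 : h ≤ 1 / 2) {ε R : ℝ} (hε : 0 < ε) (hR : 1 ≤ R) :
    ∃ T0 : ℝ, 400 ≤ T0 ∧ ∀ T : ℝ, T0 ≤ T → ∀ θ s : ℝ, (s = 1 ∨ s = -1) → ∀ u : ℂ, ‖u‖ ≤ R → 3 / 2 ≤ u.re →
    Real.exp (-(ε * Om T)) ≤ ‖gN h θ T s u‖ := by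
  obtain ⟨T0, hT0, H⟩ := FFl h0 h1 hε hR
  refine ⟨T0, hT0, fun T hT θ s hs u hu hur => ?_⟩
  have hTp : 0 < T := by linarith
  obtain ⟨v, v1, v2, v3, v4⟩ := FF_side h θ T hs u
  have h5 := H T hT θ v (by rw [v3]; exact hu) (by rw [v1]; exact hur)
  rw [← v4, ← gN_norm hTp, v1] at h5
  have hp : 0 < ‖HH (I * T)‖ * Real.exp (Om T * (u.re + h)) := mul_pos (HHp hTp) (Real.exp_pos _)
  refine le_of_mul_le_mul_right ((le_of_eq ?_).trans h5) hp
  have e : Real.exp (Om T * (u.re + h - ε)) = Real.exp (-(ε * Om T)) * Real.exp (Om T * (u.re + h)) := by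
    rw [← Real.exp_add]; congr 1; ring
  rw [e]
  ring

end Pool.Agent.V11273.LHX
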