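import Mathlib
import Pool.Agent.V11273.LHX.Nf

set_option autoImplicit false

/-!
# The Lindelöf bound to the right of `1/2 + h` and the zeros of combinations of shifts
-/

namespace Pool.Agent.V11273.LHX

open Complex Filter Topology Set Metric
open Pool.Agent.H24R2.JP (XX HH Om)
open Pool.Agent.V11273.DX (FF FF_diff nexp nexp' FF_neg)

/-- at most `c` zeros off the line in a window -/
def CnF (h θ T δ c : ℝ) : Prop := ∀ S : Finset ℂ, (∀ z ∈ S, FF h θ z = 0 ∧ δ ≤ |z.re| ∧ |z.im - T| ≤ 1) →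
  ∑ z ∈ S, (analyticOrderNatAt (FF h θ) z : ℝ) ≤ c

/-- few zeros off the line -/
def Few (h θ : ℝ) : Prop := ∀ δ ε : ℝ, 0 < δ → 0 < ε → ∃ T0 : ℝ, ∀ T : ℝ, T0 ≤ T → CnF h θ T δ (ε * Real.log T)

/-- few zeros off the line, uniformly -/
def FewU (h : ℝ) : Prop := ∀ δ ε : ℝ, 0 < δ → 0 < ε → ∃ T0 : ℝ, ∀ T : ℝ, T0 ≤ T → ∀ θ : ℝ,
  CnF h θ T δ (ε * Real.log T)

lemma FewU.few {h : ℝ} (H : FewU h) (θ : ℝ) : Few h θ := fun δ ε hδ hε => by
  obtain ⟨T0, h1⟩ := H δ ε hδ hε
  exact ⟨T0, fun T hT => h1 T hT θ⟩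

lemma side {h θ T s : ℝ} (hh : 0 < h) (hs : s = 1 ∨ s = -1) {u : ℂ} (h0 : FF h θ (I * T + s * u) = 0) :
    u.re ≤ 1 / 2 := by
  by_contra hcon
  push Not at hcon
  obtain ⟨v, v1, -, -, v4⟩ := FF_side h θ T hs u
  rw [h0, norm_zero] at v4
  have h2 : FF h θ (I * T + v) = 0 := norm_eq_zero.1 v4.symm
  have h3 : (I * T + v : ℂ).re = u.re := by rw [← v1]; simp
  exact Pool.Agent.V11273.DX.FF_ne hh ⟨by rw [h3]; linarith, Pool.Agent.V11273.DX.Fr_far (by rw [h3]; linarith)⟩ h2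

/-- the forward direction on one side -/
lemma fwd1 {h : ℝ} (h0 : 0 < h) (h1 : h ≤ 1 / 2) (hZ : Zb h) {δ ε : ℝ} (hδ : 0 < δ) (hδ1 : δ ≤ 1) (hε : 0 < ε) :
    ∃ T0 : ℝ, 400 ≤ T0 ∧ ∀ T : ℝ, T0 ≤ T → ∀ θ s : ℝ, (s = 1 ∨ s = -1) → ∀ S : Finset ℂ,
    (∀ z ∈ S, FF h θ z = 0 ∧ δ ≤ s * z.re ∧ |z.im - T| ≤ 1) →
    ∑ z ∈ S, (analyticOrderNatAt (FF h θ) z : ℝ) ≤ ε * Real.log T := by
  obtain ⟨A, hA⟩ : ∃ A : ℝ, A = 5 / δ := ⟨_, rfl⟩
  have hAδ : A * δ = 5 := by rw [hA]; field_simp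
  have hA5 : 5 ≤ A := by rw [hA, le_div_iff₀ hδ]; nlinarith
  obtain ⟨q, hq⟩ : ∃ q : ℝ, q = Real.log (A / (A - δ / 2)) := ⟨_, rfl⟩
  have hr : 0 < A - δ / 2 := by linarith
  have hq0 : 0 < q := by
    rw [hq]; apply Real.log_pos
    rw [lt_div_iff₀ hr]; linarith
  obtain ⟨e, he⟩ : ∃ e : ℝ, e = min (ε * q) 2 := ⟨_, rfl⟩
  have he0 : 0 < e := by rw [he]; exact lt_min (by positivity) (by norm_num)
  have he1 : e ≤ ε * q := by rw [he]; exact min_le_left _ _
  have he2 : e ≤ 2 := by rw [he]; exact min_le_right _ _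
  obtain ⟨T1, hT1, hup⟩ := gN_up (h := h) (k := h) h0 (by linarith) h0 (by linarith) hZ he0 he2
    (R := 2 * A) (by linarith)
  obtain ⟨T2, hT2, hlo⟩ := gN_lo (h := h) h0 h1 he0 (R := 2 * A) (by linarith)
  refine ⟨max T1 T2, hT1.trans (le_max_left _ _), fun T hT θ s hs S hS => ?_⟩
  have g1 : T1 ≤ T := (le_max_left _ _).trans hT
  have g2 : T2 ≤ T := (le_max_right _ _).trans hT
  have g4 : 400 ≤ T := hT1.trans g1
  have hTp : 0 < T := by linarith
  have hO0 := (Om_lt g4).1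
  have hs0 : (s : ℂ) ≠ 0 := by rcases hs with rfl | rfl <;> simp
  have hss : s * s = 1 := by rcases hs with rfl | rfl <;> norm_num
  have hssC : (s : ℂ) * s = 1 := by rw [← Complex.ofReal_mul, hss, Complex.ofReal_one]
  have hA2 : ‖(A : ℂ)‖ ≤ 2 * A := by
    rw [Complex.norm_real, Real.norm_eq_abs, abs_of_pos (by linarith)]; linarith
  have hloA := hlo T g2 θ s hs A hA2 (by rw [Complex.ofReal_re]; linarith)
  have hne : gN h θ T s A ≠ 0 := by
    rw [← norm_pos_iff]
    exact lt_of_lt_of_le (Real.exp_pos _) hloA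
  classical
  obtain ⟨S', hS'⟩ : ∃ S' : Finset ℂ, S' = S.image (fun z => (s : ℂ) * (z - I * T)) := ⟨_, rfl⟩
  have hinv : ∀ z : ℂ, I * T + s * (s * (z - I * T)) = z := by
    intro z
    rw [← mul_assoc, hssC]; ring
  have key := Pool.Agent.W186.LH.jc (gN_diff h θ T s) (c := A) (r := A - δ / 2) (R := A)
    (M := Real.exp (Om T * e)) hr (by linarith) ?_ hne S' ?_
  · have hsum : ∑ z ∈ S', analyticOrderNatAt (gN h θ T s) z = ∑ z ∈ S, analyticOrderNatAt (FF h θ) z := by
      rw [hS', Finset.sum_image]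
      · refine Finset.sum_congr rfl fun z _ => ?_
        rw [gN_ord h0 θ hTp hs, hinv]
      · intro x _ y _ hxy
        have := mul_left_cancel₀ hs0 hxy
        simpa using this
    rw [hsum] at key
    obtain ⟨N, hN⟩ : ∃ N : ℕ, N = ∑ z ∈ S, analyticOrderNatAt (FF h θ) z := ⟨_, rfl⟩
    rw [← hN] at key
    have hgoal : ∑ z ∈ S, (analyticOrderNatAt (FF h θ) z : ℝ) = N := by rw [hN]; push_cast; rfl
    rw [hgoal]
    have k1 : Real.exp (N * q) * Real.exp (-(e * Om T)) ≤ Real.exp (Om T * e) := by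
      refine le_trans ?_ key
      have : (A / (A - δ / 2)) ^ N = Real.exp (N * q) := by
        rw [Real.exp_nat_mul, hq, Real.exp_log (div_pos (by linarith) hr)]
      rw [this]
      gcongr
    rw [← Real.exp_add, Real.exp_le_exp] at k1
    have k2 : (N : ℝ) * q ≤ e * Real.log T := by
      have : Om T = Real.log T / 2 := rfl
      rw [this] at k1
      linarith
    have hl : 0 < Real.log T := Real.log_pos (by linarith)
    have k3 : (N : ℝ) * q ≤ (ε * Real.log T) * q := by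
      refine k2.trans ?_
      calc e * Real.log T ≤ (ε * q) * Real.log T := by gcongr
        _ = _ := by ring
    exact le_of_mul_le_mul_right k3 hq0
  · intro u hu
    rw [mem_sphere, dist_eq_norm] at hu
    have hA2' : ‖(A : ℂ)‖ = A := by
      rw [Complex.norm_real, Real.norm_eq_abs, abs_of_pos (by linarith)]
    have hu2 : ‖u‖ ≤ 2 * A := by
      have : u = (u - A) + A := by ring
      rw [this]
      refine (norm_add_le _ _).trans ?_
      rw [hu, hA2']; linarith
    have hur : 0 ≤ u.re := by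
      have := Complex.abs_re_le_norm (u - A)
      rw [hu, Complex.sub_re, Complex.ofReal_re, abs_le] at this
      linarith
    have := hup T g1 θ s hs u hu2 hur
    rw [max_eq_left (by linarith), sub_self, zero_add] at this
    exact this
  · intro u hu
    rw [hS', Finset.mem_image] at hu
    obtain ⟨z, hz, rfl⟩ := hu
    obtain ⟨z0, z1, z2⟩ := hS z hz
    have hre : ((s : ℂ) * (z - I * T)).re = s * z.re := by simp
    have him : ((s : ℂ) * (z - I * T)).im = s * (z.im - T) := by simp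
    have h5 := side h0 hs (u := (s : ℂ) * (z - I * T)) (by rw [hinv]; exact z0)
    rw [hre] at h5
    rw [mem_closedBall, dist_eq_norm]
    have h6 : ‖(s : ℂ) * (z - I * T) - A‖ ^ 2 ≤ (A - δ / 2) ^ 2 := by
      rw [← Complex.normSq_eq_norm_sq, Complex.normSq_apply]
      rw [Complex.sub_re, Complex.sub_im, hre, him, Complex.ofReal_re, Complex.ofReal_im]
      have h7 : (s * (z.im - T)) * (s * (z.im - T)) ≤ 1 := by
        have : (s * (z.im - T)) * (s * (z.im - T)) = (s * s) * |z.im - T| ^ 2 := by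
          rw [sq_abs]; ring
        rw [this, hss]
        nlinarith [abs_nonneg (z.im - T)]
      have h8 : (A - s * z.re) * (A - s * z.re) ≤ (A - δ) * (A - δ) := by
        apply mul_self_le_mul_self <;> linarith
      nlinarith
    exact le_of_sq_le_sq h6 hr.le

/-- the forward direction -/
theorem fwd {h : ℝ} (h0 : 0 < h) (h1 : h ≤ 1 / 2) (hZ : Zb h) : FewU h := by
  intro δ ε hδ hε
  obtain ⟨T0, hT0, H⟩ := fwd1 h0 h1 hZ (δ := min δ 1) (ε := ε / 2) (lt_min hδ one_pos) (min_le_right _ _)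
    (by linarith)
  refine ⟨T0, fun T hT θ S hS => ?_⟩
  classical
  have hsplit := Finset.sum_filter_add_sum_filter_not S (fun z => 0 < z.re)
    (fun z => (analyticOrderNatAt (FF h θ) z : ℝ))
  rw [← hsplit]
  have a1 := H T hT θ 1 (Or.inl rfl) (S.filter (fun z => 0 < z.re)) (by
    intro z hz
    rw [Finset.mem_filter] at hz
    obtain ⟨z0, z1, z2⟩ := hS z hz.1
    refine ⟨z0, ?_, z2⟩
    rw [abs_of_pos hz.2] at z1
    rw [one_mul]
    exact (min_le_left _ _).trans z1)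
  have a2 := H T hT θ (-1) (Or.inr rfl) (S.filter (fun z => ¬ 0 < z.re)) (by
    intro z hz
    rw [Finset.mem_filter] at hz
    obtain ⟨z0, z1, z2⟩ := hS z hz.1
    refine ⟨z0, ?_, z2⟩
    rw [abs_of_nonpos (not_lt.1 hz.2)] at z1
    have := min_le_left δ 1
    linarith)
  linarith

/-- windows -/
lemma cover {f : ℂ → ℝ} (hf : ∀ z, 0 ≤ f z) {T c : ℝ} (S : Finset ℂ) (hS : ∀ z ∈ S, |z.im - T| ≤ 5)
    (H : ∀ j ∈ Finset.range 5, ∀ S' : Finset ℂ, S' ⊆ S → (∀ z ∈ S', |z.im - (T + (2 * (j : ℝ) - 4))| ≤ 1) →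
      ∑ z ∈ S', f z ≤ c) : ∑ z ∈ S, f z ≤ 5 * c := by
  classical
  have h1 : ∑ z ∈ S, f z ≤ ∑ z ∈ S, ∑ j ∈ Finset.range 5,
      (if |z.im - (T + (2 * (j : ℝ) - 4))| ≤ 1 then f z else 0) := by
    refine Finset.sum_le_sum fun z hz => ?_
    have h2 := abs_le.1 (hS z hz)
    have h3 : ∃ j ∈ Finset.range 5, |z.im - (T + (2 * (j : ℝ) - 4))| ≤ 1 := by
      by_cases c1 : z.im - T ≤ -3
      · exact ⟨0, by simp, by rw [abs_le]; push_cast; constructor <;> linarith⟩
      by_cases c2 : z.im - T ≤ -1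
      · exact ⟨1, by simp, by rw [abs_le]; push_cast; constructor <;> linarith⟩
      by_cases c3 : z.im - T ≤ 1
      · exact ⟨2, by simp, by rw [abs_le]; push_cast; constructor <;> linarith⟩
      by_cases c4 : z.im - T ≤ 3
      · exact ⟨3, by simp, by rw [abs_le]; push_cast; constructor <;> linarith⟩
      · exact ⟨4, by simp, by rw [abs_le]; push_cast; constructor <;> linarith⟩
    obtain ⟨j, hj, hj2⟩ := h3
    have h4 := Finset.single_le_sum (f := fun j : ℕ =>
      (if |z.im - (T + (2 * (j : ℝ) - 4))| ≤ 1 then f z else 0)) (s := Finset.range 5)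
      (fun i _ => by
        show 0 ≤ (if |z.im - (T + (2 * (i : ℝ) - 4))| ≤ 1 then f z else 0)
        split_ifs
        · exact hf z
        · exact le_rfl) hj
    rw [if_pos hj2] at h4
    exact h4
  rw [Finset.sum_comm] at h1
  refine h1.trans ?_
  have h5 : ∀ j ∈ Finset.range 5, ∑ z ∈ S, (if |z.im - (T + (2 * (j : ℝ) - 4))| ≤ 1 then f z else 0) ≤ c := by
    intro j hj
    rw [← Finset.sum_filter]
    refine H j hj _ (Finset.filter_subset _ _) fun z hz => ?_
    exact (Finset.mem_filter.1 hz).2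
  refine (Finset.sum_le_sum h5).trans ?_
  simp

/-- few zeros give an upper bound for the combination -/
lemma bwd1 {h θ : ℝ} (h0 : 0 < h) (h1 : h ≤ 1 / 2) (hF : Few h θ) {η : ℝ} (hη : 0 < η) (hη4 : η ≤ 1 / 4) :
    ∃ T0 : ℝ, 400 ≤ T0 ∧ ∀ T : ℝ, T0 ≤ T → ∀ σ : ℝ, η ≤ σ → σ ≤ 9 →
    ‖FF h θ (I * T + σ)‖ ≤ Real.exp (Om T * (σ + h + η)) * ‖HH (I * T)‖ := by
  obtain ⟨e, he, hsab⟩ := Pool.Agent.W186.LH.sabZ η η 3 hη hη4 hη (by norm_num)
  obtain ⟨T1, hT1, hup1⟩ := gN_up (h := h) (k := 1) h0 (by linarith) one_pos le_rfl Zb_one (ε := 2) two_pos le_rfl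
    (R := 10) (by norm_num)
  obtain ⟨T2, hT2, hup2⟩ := gN_up (h := h) (k := 1) h0 (by linarith) one_pos le_rfl Zb_one (ε := min e 2)
    (lt_min he two_pos) (min_le_right _ _) (R := 10) (by norm_num)
  obtain ⟨T3, hT3, hlo⟩ := gN_lo (h := h) h0 h1 he (R := 10) (by norm_num)
  obtain ⟨T4, hC⟩ := hF (η / 4) (e / 20) (by linarith) (by linarith)
  obtain ⟨T5, hT5, hO⟩ := Om_ge 1
  refine ⟨max (max (max T1 T2) (max T3 (T4 + 4))) T5, hT5.trans (le_max_right _ _), fun T hT σ hσ0 hσ1 => ?_⟩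
  have g1 : T1 ≤ T := (le_max_left _ _).trans ((le_max_left _ _).trans ((le_max_left _ _).trans hT))
  have g2 : T2 ≤ T := (le_max_right _ _).trans ((le_max_left _ _).trans ((le_max_left _ _).trans hT))
  have g3 : T3 ≤ T := (le_max_left _ _).trans ((le_max_right _ _).trans ((le_max_left _ _).trans hT))
  have g4 : T4 + 4 ≤ T := (le_max_right _ _).trans ((le_max_right _ _).trans ((le_max_left _ _).trans hT))
  have g5 : T5 ≤ T := (le_max_right _ _).trans hT
  have hOm := hO T g5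
  have g400 : 400 ≤ T := hT5.trans g5
  have hTp : 0 < T := by linarith
  have ball5 : ∀ u ∈ closedBall (5 : ℂ) 5, ‖u‖ ≤ 10 ∧ 0 ≤ u.re := by
    intro u hu
    rw [mem_closedBall, dist_eq_norm] at hu
    constructor
    · have e1 : u = (u - 5) + 5 := by ring
      rw [e1]
      refine (norm_add_le _ _).trans ?_
      have : ‖(5 : ℂ)‖ = 5 := by simp
      linarith
    · have := (Complex.abs_re_le_norm (u - 5)).trans hu
      rw [Complex.sub_re, abs_le] at this
      have e2 : (5 : ℂ).re = 5 := by simp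
      rw [e2] at this
      linarith
  have ball7 : ∀ u ∈ closedBall (5 : ℂ) (7 / 2), 3 / 2 ≤ u.re := by
    intro u hu
    rw [mem_closedBall, dist_eq_norm] at hu
    have := (Complex.abs_re_le_norm (u - 5)).trans hu
    rw [Complex.sub_re, abs_le] at this
    have e2 : (5 : ℂ).re = 5 := by simp
    rw [e2] at this
    linarith
  have key := hsab (Om T) (gN h θ T 1) (by linarith) (gN_diff h θ T 1) ?_ ?_ ?_ (σ : ℂ) (by
      rw [Metric.mem_closedBall, dist_eq_norm]
      have e : (σ : ℂ) - 5 = ((σ - 5 : ℝ) : ℂ) := by push_cast; ring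
      rw [e, Complex.norm_real, Real.norm_eq_abs, abs_le]
      constructor <;> linarith)
  · have hn := gN_norm (h := h) (θ := θ) hTp 1 (σ : ℂ)
    rw [Complex.ofReal_one, one_mul, Complex.ofReal_re] at hn
    rw [← hn]
    have hHp : 0 ≤ ‖HH (I * T)‖ := norm_nonneg _
    calc ‖gN h θ T 1 (σ : ℂ)‖ * (‖HH (I * T)‖ * Real.exp (Om T * (σ + h)))
        ≤ Real.exp (η * Om T) * (‖HH (I * T)‖ * Real.exp (Om T * (σ + h))) :=
          mul_le_mul_of_nonneg_right key (by positivity)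
      _ = Real.exp (Om T * (σ + h + η)) * ‖HH (I * T)‖ := by
          have e : Om T * (σ + h + η) = η * Om T + Om T * (σ + h) := by ring
          rw [e, Real.exp_add (η * Om T)]
          ring
  · intro u hu
    obtain ⟨b1, b2⟩ := ball5 u hu
    refine (hup1 T g1 θ 1 (Or.inl rfl) u b1 b2).trans (Real.exp_le_exp.2 ?_)
    have : max (u.re + h) 1 - (u.re + h) ≤ 1 := by
      rcases le_total (u.re + h) 1 with h3 | h3
      · rw [max_eq_right h3]; linarith
      · rw [max_eq_left h3]; linarith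
    nlinarith
  · intro u hu
    obtain ⟨b1, b2⟩ := ball5 u (closedBall_subset_closedBall (by norm_num) hu)
    have b3 := ball7 u hu
    refine ⟨hlo T g3 θ 1 (Or.inl rfl) u b1 b3, ?_⟩
    refine (hup2 T g2 θ 1 (Or.inl rfl) u b1 b2).trans (Real.exp_le_exp.2 ?_)
    rw [max_eq_left (by linarith), sub_self, zero_add]
    have := min_le_left e 2
    nlinarith
  · intro S hS
    classical
    obtain ⟨S', hS'⟩ : ∃ S' : Finset ℂ, S' = S.image (fun u => I * T + ((1 : ℝ) : ℂ) * u) := ⟨_, rfl⟩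
    have hsum : ∑ u ∈ S, (analyticOrderNatAt (gN h θ T 1) u : ℝ) =
        ∑ z ∈ S', (analyticOrderNatAt (FF h θ) z : ℝ) := by
      rw [hS', Finset.sum_image (by
        intro x _ y _ hxy
        simpa using hxy)]
      refine Finset.sum_congr rfl fun u _ => ?_
      rw [gN_ord h0 θ hTp (Or.inl rfl)]
    rw [hsum]
    have hmem : ∀ z ∈ S', FF h θ z = 0 ∧ η / 4 ≤ |z.re| ∧ |z.im - T| ≤ 5 := by
      intro z hz
      rw [hS', Finset.mem_image] at hz
      obtain ⟨u, hu, rfl⟩ := hz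
      obtain ⟨u1, u2⟩ := hS u hu
      rw [mem_closedBall, dist_eq_norm] at u2
      refine ⟨(gN_zero hTp u).1 u1, ?_, ?_⟩
      · have := (Complex.abs_re_le_norm (u - 5)).trans u2
        rw [Complex.sub_re, abs_le] at this
        have e2 : (5 : ℂ).re = 5 := by simp
        rw [e2] at this
        have e3 : (I * T + ((1 : ℝ) : ℂ) * u).re = u.re := by simp
        rw [e3]
        refine le_trans ?_ (le_abs_self _)
        linarith
      · have := (Complex.abs_im_le_norm (u - 5)).trans u2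
        have e2 : (u - 5).im = u.im := by simp
        rw [e2] at this
        have e3 : (I * T + ((1 : ℝ) : ℂ) * u).im - T = u.im := by simp
        rw [e3]
        linarith
    refine (cover (fun z => Nat.cast_nonneg _) (T := T) (c := e / 5 * Om T) S' (fun z hz => (hmem z hz).2.2)
      ?_).trans (le_of_eq (by ring))
    intro j hj S'' hsub hwin
    rw [Finset.mem_range] at hj
    have hj1 : (j : ℝ) ≤ 4 := by
      have : j ≤ 4 := by omega
      exact_mod_cast this
    have hj0 : (0 : ℝ) ≤ j := Nat.cast_nonneg j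
    have h5 := hC (T + (2 * (j : ℝ) - 4)) (by linarith) S'' (fun z hz =>
      ⟨(hmem z (hsub hz)).1, (hmem z (hsub hz)).2.1, hwin z hz⟩)
    refine h5.trans ?_
    have h6 := (Om_near g400 (t := T + (2 * (j : ℝ) - 4)) (by linarith) (by linarith)).1
    have h7 : Om (T + (2 * (j : ℝ) - 4)) = Real.log (T + (2 * (j : ℝ) - 4)) / 2 := rfl
    rw [h7] at h6
    nlinarith

end Pool.Agent.V11273.LHX
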