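import Mathlib
import Pool.Agent.V11273.LHX.Fb

set_option autoImplicit false

/-!
# From few zeros to the Lindelöf bound
-/

namespace Pool.Agent.V11273.LHX

open Complex Filter Topology Set Metric
open Pool.Agent.H24R2.JP (XX HH Om)
open Pool.Agent.V11273.DX (FF FF_diff nexp nexp' FF_neg)

/-- two phases -/
lemma solve2 (h θ₁ θ₂ : ℝ) (z : ℂ) :
    2 * |Real.sin (θ₁ - θ₂)| * ‖XX (z + h)‖ ≤ ‖FF h θ₁ z‖ + ‖FF h θ₂ z‖ := by
  have e1 : cexp (-(θ₂ * I)) * FF h θ₁ z - cexp (-(θ₁ * I)) * FF h θ₂ z =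
      (2 * I * Complex.sin ((θ₁ - θ₂ : ℝ) : ℂ)) * XX (z + h) := by
    unfold Pool.Agent.V11273.DX.FF
    have a1 : cexp (-(θ₂ * I)) * cexp (θ₁ * I) - cexp (-(θ₁ * I)) * cexp (θ₂ * I) =
        2 * I * Complex.sin ((θ₁ - θ₂ : ℝ) : ℂ) := by
      rw [Complex.sin, ← Complex.exp_add, ← Complex.exp_add]
      have b1 : -(θ₂ * I) + θ₁ * I = ((θ₁ - θ₂ : ℝ) : ℂ) * I := by push_cast; ring
      have b2 : -(θ₁ * I) + θ₂ * I = -((θ₁ - θ₂ : ℝ) : ℂ) * I := by push_cast; ring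
      rw [b1, b2]
      linear_combination (cexp (-((θ₁ - θ₂ : ℝ) : ℂ) * I) - cexp (((θ₁ - θ₂ : ℝ) : ℂ) * I)) * (-I_sq)
    have a2 : cexp (-(θ₂ * I)) * cexp (-(θ₁ * I)) = cexp (-(θ₁ * I)) * cexp (-(θ₂ * I)) := mul_comm _ _
    rw [← a1]
    linear_combination a2 * XX (z - h)
  have e2 := congrArg norm e1
  rw [norm_mul, norm_mul, norm_mul, Complex.norm_I, ← Complex.ofReal_sin, Complex.norm_real, Real.norm_eq_abs,
    RCLike.norm_ofNat, mul_one] at e2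
  rw [← e2]
  refine (norm_sub_le _ _).trans ?_
  rw [norm_mul, norm_mul, nexp', nexp', one_mul, one_mul]

/-- one phase, two shifts -/
lemma solve1 (h θ : ℝ) (z : ℂ) :
    2 * |Real.cos θ| * ‖XX (z + (2 * h : ℝ))‖ ≤ ‖FF h θ (z + h)‖ + ‖FF h θ (z - h)‖ + ‖FF (2 * h) θ z‖ := by
  have e1 : FF h θ (z + h) - cexp (-((2 * θ : ℝ) * I)) * FF h θ (z - h) + cexp (-((2 * θ : ℝ) * I)) * FF (2 * h) θ z =
      (2 * Complex.cos (θ : ℂ)) * XX (z + (2 * h : ℝ)) := by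
    unfold Pool.Agent.V11273.DX.FF
    have a1 : 2 * Complex.cos (θ : ℂ) = cexp (θ * I) + cexp (-(θ * I)) := by
      rw [Complex.cos, neg_mul]; ring
    have a2 : cexp (-((2 * θ : ℝ) * I)) = cexp (-(θ * I)) * cexp (-(θ * I)) := by
      rw [← Complex.exp_add]; congr 1; push_cast; ring
    have a3 : cexp (-(θ * I)) * cexp (θ * I) = 1 := by rw [← Complex.exp_add, neg_add_cancel, Complex.exp_zero]
    have b1 : (z + h + h : ℂ) = z + (2 * h : ℝ) := by push_cast; ring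
    have b2 : (z + h - h : ℂ) = z := by ring
    have b3 : (z - h + h : ℂ) = z := by ring
    have b4 : (z - h - h : ℂ) = z - (2 * h : ℝ) := by push_cast; ring
    rw [a1, a2, b1, b2, b3, b4]
    linear_combination (-cexp (-(θ * I)) * XX z + cexp (-(θ * I)) * XX (z + (2 * h : ℝ))) * a3
  have e2 := congrArg norm e1
  rw [norm_mul, norm_mul, ← Complex.ofReal_cos, Complex.norm_real, Real.norm_eq_abs, RCLike.norm_ofNat] at e2
  rw [← e2]
  refine (norm_add_le _ _).trans ?_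
  rw [norm_mul, nexp', one_mul]
  refine add_le_add ((norm_sub_le _ _).trans ?_) le_rfl
  rw [norm_mul, nexp', one_mul]

/-- from `XX` to zeta -/
lemma zX {x C η T1 : ℝ} (hx0 : 0 ≤ x) (hx : x ≤ 2) (hη : 0 < η)
    (H : ∀ T : ℝ, T1 ≤ T → ‖XX (I * T + x)‖ ≤ Real.exp C * (Real.exp (Om T * (x + η)) * ‖HH (I * T)‖)) :
    ∃ T0 : ℝ, ∀ T : ℝ, T0 ≤ T → ‖riemannZeta (1 / 2 + x + T * I)‖ ≤ Real.exp (2 * η * Om T) := by
  obtain ⟨K, hK, hH⟩ := Pool.Agent.H986R2.K4.hh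
  obtain ⟨T3, hT3, hH⟩ := hH 2 (by norm_num)
  obtain ⟨T2, hT2, hO⟩ := Om_ge ((C + K * 2) / η)
  refine ⟨max (max T3 T2) T1, fun T hT => ?_⟩
  have g3 : T3 ≤ T := (le_max_left _ _).trans ((le_max_left _ _).trans hT)
  have g2 : T2 ≤ T := (le_max_right _ _).trans ((le_max_left _ _).trans hT)
  have g1 : T1 ≤ T := (le_max_right _ _).trans hT
  have g4 : 400 ≤ T := hT2.trans g2
  have q1 := hO T g2
  rw [div_le_iff₀ hη] at q1
  obtain ⟨-, -, -, a3, -⟩ := hH T x g3 (by rw [Complex.norm_real, Real.norm_eq_abs, abs_of_nonneg hx0]; exact hx)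
  rw [Complex.ofReal_re] at a3
  have im1 : 0 < (I * T + x : ℂ).im := by simp; linarith
  have h1 := H T g1
  rw [Pool.Agent.H24R2.JP.ZetaTask.part1 _ im1, norm_mul] at h1
  have hHp := HHp (T := T) (by linarith)
  have e1 : (1 / 2 + x + T * I : ℂ) = 1 / 2 + (I * T + x) := by ring
  rw [e1]
  have h2 : (Real.exp (Om T * x - K * 2) * ‖HH (I * T)‖) * ‖riemannZeta (1 / 2 + (I * T + x))‖ ≤
      (Real.exp (Om T * x - K * 2) * ‖HH (I * T)‖) * Real.exp (2 * η * Om T) := by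
    calc (Real.exp (Om T * x - K * 2) * ‖HH (I * T)‖) * ‖riemannZeta (1 / 2 + (I * T + x))‖ ≤
          ‖HH (I * T + x)‖ * ‖riemannZeta (1 / 2 + (I * T + x))‖ := by gcongr
      _ ≤ Real.exp C * (Real.exp (Om T * (x + η)) * ‖HH (I * T)‖) := h1
      _ = Real.exp (C + Om T * (x + η)) * ‖HH (I * T)‖ := by rw [Real.exp_add]; ring
      _ ≤ Real.exp (Om T * x - K * 2 + 2 * η * Om T) * ‖HH (I * T)‖ := by
          refine mul_le_mul_of_nonneg_right (Real.exp_le_exp.2 ?_) hHp.le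
          nlinarith
      _ = _ := by rw [Real.exp_add]; ring
  exact le_of_mul_le_mul_left h2 (by positivity)

/-- the limit -/
lemma Zb_lim {h : ℝ} (h0 : 0 ≤ h) (h1 : h ≤ 1 / 2) (H : ∀ ε : ℝ, 0 < ε → ∃ x : ℝ, h < x ∧ x ≤ h + ε ∧ Zb x) : Zb h := by
  intro ε hε
  obtain ⟨x, hx1, hx2, hx⟩ := H (min (ε / 4) (1 / 2)) (lt_min (by linarith) (by norm_num))
  have hx3 := hx2.trans (add_le_add_right (min_le_left _ _) h)
  have hx4 := hx2.trans (add_le_add_right (min_le_right _ _) h)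
  obtain ⟨T1, hT1, hX⟩ := XXb (h := x) (by linarith) (by linarith) hx (ε := min (ε / 4) 2) (R := 1)
    (lt_min (by linarith) two_pos) (min_le_right _ _) le_rfl
  have e0 : ε = 2 * (ε / 2) := by ring
  rw [e0]
  refine zX (C := 0) (T1 := T1) h0 (by linarith) (by linarith) fun T hT => ?_
  have h2 := hX T hT h (by rw [Complex.norm_real, Real.norm_eq_abs, abs_of_nonneg h0]; linarith)
  rw [Complex.ofReal_re, abs_of_nonneg h0, max_eq_right hx1.le] at h2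
  rw [Real.exp_zero, one_mul]
  refine h2.trans ?_
  have hO := (Om_lt (hT1.trans hT)).1
  have := min_le_left (ε / 4) 2
  gcongr ?_ * ‖HH (I * T)‖
  apply Real.exp_le_exp.2
  nlinarith

/-- two phases: few zeros give the Lindelöf bound -/
theorem bwd2 {h θ₁ θ₂ : ℝ} (h0 : 0 < h) (h1 : h ≤ 1 / 2) (hs : Real.sin (θ₁ - θ₂) ≠ 0) (hF₁ : Few h θ₁)
    (hF₂ : Few h θ₂) : Zb h := by
  refine Zb_lim h0.le h1 fun ε hε => ?_
  obtain ⟨x, hx⟩ : ∃ x : ℝ, x = min ε (1 / 4) := ⟨_, rfl⟩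
  have hx0 : 0 < x := by rw [hx]; exact lt_min hε (by norm_num)
  have hx1 : x ≤ ε := by rw [hx]; exact min_le_left _ _
  have hx2 : x ≤ 1 / 4 := by rw [hx]; exact min_le_right _ _
  refine ⟨h + x, by linarith, by linarith, fun e he => ?_⟩
  obtain ⟨η, hη⟩ : ∃ η : ℝ, η = min (e / 2) x := ⟨_, rfl⟩
  have hη0 : 0 < η := by rw [hη]; exact lt_min (by linarith) hx0
  have hη1 : η ≤ e / 2 := by rw [hη]; exact min_le_left _ _
  have hη2 : η ≤ x := by rw [hη]; exact min_le_right _ _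
  obtain ⟨T1, hT1, b1⟩ := bwd1 h0 h1 hF₁ hη0 (by linarith)
  obtain ⟨T2, hT2, b2⟩ := bwd1 h0 h1 hF₂ hη0 (by linarith)
  have hsp : 0 < |Real.sin (θ₁ - θ₂)| := abs_pos.2 hs
  have e0 : e = 2 * (e / 2) := by ring
  rw [e0]
  push_cast
  rw [← Complex.ofReal_add]
  refine zX (C := -Real.log (|Real.sin (θ₁ - θ₂)|)) (T1 := max T1 T2) (by linarith) (by linarith) (by linarith)
    fun T hT => ?_
  have g1 : T1 ≤ T := (le_max_left _ _).trans hT
  have g2 : T2 ≤ T := (le_max_right _ _).trans hT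
  have hO := (Om_lt (hT1.trans g1)).1
  have c1 := b1 T g1 x hη2 (by linarith)
  have c2 := b2 T g2 x hη2 (by linarith)
  have c3 := solve2 h θ₁ θ₂ (I * T + x)
  have e1 : (I * T + x + h : ℂ) = I * T + ((h + x : ℝ) : ℂ) := by push_cast; ring
  rw [e1] at c3
  rw [Real.exp_neg, Real.exp_log hsp]
  have hHp := HHp (T := T) (by linarith [hT1.trans g1])
  have c4 : Real.exp (Om T * (x + h + η)) ≤ Real.exp (Om T * (h + x + e / 2)) := by
    apply Real.exp_le_exp.2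
    nlinarith
  have c5 : 2 * |Real.sin (θ₁ - θ₂)| * ‖XX (I * T + ((h + x : ℝ) : ℂ))‖ ≤
      2 * (Real.exp (Om T * (h + x + e / 2)) * ‖HH (I * T)‖) := by
    nlinarith
  rw [← div_eq_inv_mul, le_div_iff₀ hsp]
  linarith

/-- one phase, two shifts: few zeros give a Lindelöf bound -/
theorem bwd3 {h θ : ℝ} (h0 : 0 < h) (h1 : h ≤ 1 / 8) (hs : Real.cos θ ≠ 0) (hF₁ : Few h θ)
    (hF₂ : Few (2 * h) θ) {x : ℝ} (hx0 : 0 < x) (hx1 : x ≤ 1 / 4) : Zb (3 * h + x) := by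
  intro e he
  obtain ⟨η, hη⟩ : ∃ η : ℝ, η = min (e / 2) x := ⟨_, rfl⟩
  have hη0 : 0 < η := by rw [hη]; exact lt_min (by linarith) hx0
  have hη1 : η ≤ e / 2 := by rw [hη]; exact min_le_left _ _
  have hη2 : η ≤ x := by rw [hη]; exact min_le_right _ _
  obtain ⟨T1, hT1, b1⟩ := bwd1 h0 (by linarith) hF₁ hη0 (by linarith)
  obtain ⟨T2, hT2, b2⟩ := bwd1 (h := 2 * h) (by linarith) (by linarith) hF₂ hη0 (by linarith)
  have hsp : 0 < |Real.cos θ| := abs_pos.2 hs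
  have e0 : e = 2 * (e / 2) := by ring
  rw [e0]
  refine zX (C := Real.log (2 / |Real.cos θ|)) (T1 := max T1 T2) (by linarith) (by linarith) (by linarith)
    fun T hT => ?_
  have g1 : T1 ≤ T := (le_max_left _ _).trans hT
  have g2 : T2 ≤ T := (le_max_right _ _).trans hT
  have hO := (Om_lt (hT1.trans g1)).1
  have c1 := b1 T g1 (2 * h + x) (by linarith) (by linarith)
  have c1' := b1 T g1 x hη2 (by linarith)
  have c2 := b2 T g2 (h + x) (by linarith) (by linarith)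
  have c3 := solve1 h θ (I * T + ((h + x : ℝ) : ℂ))
  have e1 : (I * T + ((h + x : ℝ) : ℂ) + ((2 * h : ℝ) : ℂ)) = I * T + ((3 * h + x : ℝ) : ℂ) := by push_cast; ring
  have e2 : (I * T + ((h + x : ℝ) : ℂ) + h) = I * T + ((2 * h + x : ℝ) : ℂ) := by push_cast; ring
  have e3 : (I * T + ((h + x : ℝ) : ℂ) - h) = I * T + (x : ℂ) := by push_cast; ring
  rw [e1, e2, e3] at c3
  rw [Real.exp_log (by positivity)]
  have hHp := HHp (T := T) (by linarith [hT1.trans g1])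
  have c4 : Real.exp (Om T * (2 * h + x + h + η)) ≤ Real.exp (Om T * (3 * h + x + e / 2)) := by
    apply Real.exp_le_exp.2
    nlinarith
  have c5 : Real.exp (Om T * (x + h + η)) ≤ Real.exp (Om T * (3 * h + x + e / 2)) := by
    apply Real.exp_le_exp.2
    nlinarith
  have c6 : Real.exp (Om T * (h + x + 2 * h + η)) ≤ Real.exp (Om T * (3 * h + x + e / 2)) := by
    apply Real.exp_le_exp.2
    nlinarith
  have c7 : 2 * |Real.cos θ| * ‖XX (I * T + ((3 * h + x : ℝ) : ℂ))‖ ≤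
      3 * (Real.exp (Om T * (3 * h + x + e / 2)) * ‖HH (I * T)‖) := by
    nlinarith
  rw [div_mul_eq_mul_div, le_div_iff₀ hsp]
  have := Real.exp_pos (Om T * (3 * h + x + e / 2))
  nlinarith [mul_pos this hHp]

/-- one phase: few zeros for arbitrarily small shifts give the Lindelöf hypothesis -/
theorem bwd4 {θ : ℝ} (hs : Real.cos θ ≠ 0) (H : ∀ η : ℝ, 0 < η → ∃ h : ℝ, 0 < h ∧ h < η ∧ Few h θ ∧ Few (2 * h) θ) :
    Zb 0 := by
  refine Zb_lim le_rfl (by norm_num) fun ε hε => ?_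
  obtain ⟨h, h0, h1, h2, h3⟩ := H (min (ε / 4) (1 / 8)) (lt_min (by linarith) (by norm_num))
  have h4 := h1.le.trans (min_le_left _ _)
  have h5 := h1.le.trans (min_le_right _ _)
  exact ⟨3 * h + h, by linarith, by linarith, bwd3 h0 h5 hs h2 h3 h0 (by linarith)⟩

/-- two phases: few zeros for arbitrarily small shifts give the Lindelöf hypothesis -/
theorem bwd5 (H : ∀ η : ℝ, 0 < η → ∃ h θ₁ θ₂ : ℝ, 0 < h ∧ h < η ∧ Real.sin (θ₁ - θ₂) ≠ 0 ∧ Few h θ₁ ∧ Few h θ₂) :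
    Zb 0 := by
  refine Zb_lim le_rfl (by norm_num) fun ε hε => ?_
  obtain ⟨h, θ₁, θ₂, h0, h1, hs, h2, h3⟩ := H (min ε (1 / 2)) (lt_min hε (by norm_num))
  have h4 := h1.le.trans (min_le_left _ _)
  have h5 := h1.le.trans (min_le_right _ _)
  exact ⟨h, h0, by linarith, bwd2 h0 h5 hs h2 h3⟩

/-- monotonicity -/
lemma Zb_mono {h k : ℝ} (h0 : 0 ≤ h) (hk : h ≤ k) (hZ : Zb h) : Zb k := by
  intro ε hε
  obtain ⟨T0, hT0, H⟩ := right h0 hZ hε
  exact ⟨T0, fun T hT => H T hT k hk⟩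

end Pool.Agent.V11273.LHX
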